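import Pool.Agent.N325.DD.Stm

/-!
# DD/C: lower bound by the classes
-/

set_option autoImplicit false

namespace Pool.Agent.N751.DD

open Finset Pool.Agent.N325.DD

theorem key {K n m s m1 s1 : ℕ} (hm0 : 0 < m) (hs10 : 0 < m1 * s1)
    (hm : ∀ p : ℕ, p.Prime → p ∣ m → K ≤ p) (hs : ∀ p : ℕ, p.Prime → p ∣ s → p < K)
    (hm1 : ∀ p : ℕ, p.Prime → p ∣ m1 → K ≤ p) (hs1 : ∀ p : ℕ, p.Prime → p ∣ s1 → p < K)
    (hb : m1 * s1 ≤ n) (ha : n / m < K * s) (hd : m * s ∣ m1 * s1) : m = m1 ∧ s ∣ s1 := by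
  obtain ⟨t, ht⟩ := hd
  have ht0 : 0 < t := by
    rcases Nat.eq_zero_or_pos t with h | h
    · subst h; simp at ht; rcases ht with h | h <;> simp [h] at hs10
    · exact h
  have h1 : n < K * s * m := (Nat.div_lt_iff_lt_mul hm0).1 ha
  have h2 : t < K := by
    by_contra hc
    push Not at hc
    have h3 : K * (m * s) ≤ t * (m * s) := Nat.mul_le_mul_right _ hc
    have h4 : m * s * t ≤ n := by rw [← ht]; exact hb
    have h5 : K * s * m = K * (m * s) := by ring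
    have h6 : t * (m * s) = m * s * t := by ring
    omega
  have hst : ∀ p : ℕ, p.Prime → p ∣ s * t → p < K := by
    intro p hp hd
    rcases (Nat.Prime.dvd_mul hp).1 hd with h | h
    · exact hs p hp h
    · exact (Nat.le_of_dvd ht0 h).trans_lt h2
  have := unique_of hm0 hm hst hm1 hs1 (by rw [ht]; ring)
  exact ⟨this.1, this.2 ▸ dvd_mul_right s t⟩

theorem lower (K X n : ℕ) (_ : 2 ≤ K) : ∑ m ∈ R K n, g K X (n / m) ≤ f n := by
  classical
  choose A hsub hadm hcard using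
    fun m : ℕ => exists_mx ((W K X).filter (fun s => s ≤ n / m ∧ n / m < K * s))
  have hA : ∀ m s, s ∈ A m → (1 ≤ s ∧ (∀ p : ℕ, p.Prime → p ∣ s → p < K)) ∧
      s ≤ n / m ∧ n / m < K * s := by
    intro m s hs
    have h := Finset.mem_filter.1 (hsub m hs)
    have h1 := mem_W.1 h.1
    exact ⟨⟨h1.1.1, h1.2⟩, h.2⟩
  have hR : ∀ m ∈ R K n, 0 < m ∧ (∀ p : ℕ, p.Prime → p ∣ m → K ≤ p) := by
    intro m hm
    have h := mem_R.1 hm
    exact ⟨h.1.1, h.2⟩
  set B : Finset ℕ := (R K n).biUnion (fun m => (A m).image (fun s => m * s)) with hB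
  have hcardB : B.card = ∑ m ∈ R K n, g K X (n / m) := by
    rw [hB, Finset.card_biUnion]
    · refine Finset.sum_congr rfl fun m hm => ?_
      rw [Finset.card_image_of_injective _ (fun x y h => Nat.eq_of_mul_eq_mul_left (hR m hm).1 h)]
      exact hcard m
    · intro m hm m' hm' hne
      change Disjoint ((A m).image (fun s => m * s)) ((A m').image (fun s => m' * s))
      rw [Finset.disjoint_left]
      intro x hx hx'
      obtain ⟨s, hs, rfl⟩ := Finset.mem_image.1 hx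
      obtain ⟨s', hs', he⟩ := Finset.mem_image.1 hx'
      have h1 := hR m hm
      have h2 := hR m' hm'
      have h3 := hA m s hs
      have h4 := hA m' s' hs'
      exact hne (unique_of h1.1 h1.2 h3.1.2 h2.2 h4.1.2 he.symm).1
  have hmem : ∀ b ∈ B, ∃ m ∈ R K n, ∃ s ∈ A m, b = m * s := by
    intro b hb
    rw [hB, Finset.mem_biUnion] at hb
    obtain ⟨m, hm, hb⟩ := hb
    obtain ⟨s, hs, rfl⟩ := Finset.mem_image.1 hb
    exact ⟨m, hm, s, hs, rfl⟩
  have hle : ∀ m ∈ R K n, ∀ s ∈ A m, 1 ≤ m * s ∧ m * s ≤ n := by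
    intro m hm s hs
    have h1 := hR m hm
    have h3 := hA m s hs
    refine ⟨Nat.mul_pos h1.1 h3.1.1, ?_⟩
    have := (Nat.le_div_iff_mul_le h1.1).1 h3.2.1
    rwa [mul_comm] at this
  rw [← hcardB]
  refine card_le_mx ?_ ?_
  · intro a ha b hb c hc hab hac hbc hd
    obtain ⟨m, hm, s, hs, rfl⟩ := hmem a ha
    obtain ⟨m1, hm1, s1, hs1, rfl⟩ := hmem b hb
    obtain ⟨m2, hm2, s2, hs2, rfl⟩ := hmem c hc
    have k1 := key (n := n) (hR m hm).1 (hle m1 hm1 s1 hs1).1 (hR m hm).2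
      (hA m s hs).1.2 (hR m1 hm1).2 (hA m1 s1 hs1).1.2 (hle m1 hm1 s1 hs1).2 (hA m s hs).2.2 hd.1
    have k2 := key (n := n) (hR m hm).1 (hle m2 hm2 s2 hs2).1 (hR m hm).2
      (hA m s hs).1.2 (hR m2 hm2).2 (hA m2 s2 hs2).1.2 (hle m2 hm2 s2 hs2).2 (hA m s hs).2.2 hd.2
    obtain ⟨e1, d1⟩ := k1
    obtain ⟨e2, d2⟩ := k2
    subst e1
    subst e2
    exact hadm m s hs s1 hs1 s2 hs2 (fun h => hab (by rw [h])) (fun h => hac (by rw [h]))
      (fun h => hbc (by rw [h])) ⟨d1, d2⟩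
  · intro b hb
    obtain ⟨m, hm, s, hs, rfl⟩ := hmem b hb
    exact Finset.mem_Icc.2 (hle m hm s hs)

end Pool.Agent.N751.DD
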